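import Pool.Agent.H68.L.R_seed8.Y703.CQ.Stm

/-! CQ-BOX: the count in a box (adapted from `Pool.Agent.Y911.CX.BOX` of helper911). -/

set_option autoImplicit false

open scoped Classical

namespace Pool.Agent.Y657.CQ

open Finset
open Pool.Agent.Y703.CQ

/-- the type of the labels -/
abbrev Lb (S₀ : Finset ℕ) : Type := (S₀ → ZMod 2) × (S₀ → ZMod 2) × ZMod 2

/-- the label of a prime with respect to the small primes -/
noncomputable def lb (f : ℕ → ZMod 2) (S₀ : Finset ℕ) (x : ℕ) : Lb S₀ :=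
  (fun u => nr u x, fun u => nr x u, f x)

/-- the good labels -/
def LN {ι : Type} (S₀ : Finset ℕ) (J1 : Finset ι) (β : ι → Lb S₀) : Prop :=
  ∀ w : S₀ → ZMod 2, (∃ u : S₀, (u : ℕ) % 8 = 1 ∧ w u ≠ 0) →
    ∃ i ∈ J1, ∑ u ∈ univ.filter (fun u : S₀ => (u : ℕ) % 8 = 1), w u * (β i).2.1 u ≠ 0

theorem nr_self (p : ℕ) : nr p p = 0 := by
  unfold nr
  rw [if_pos]
  rw [ZMod.natCast_self]
  exact ⟨0, by simp⟩

theorem nr_symm {p q : ℕ} (hp : p.Prime) (hp1 : p % 8 = 1) (hq : q.Prime) (hq2 : q ≠ 2) :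
    nr p q = nr q p := by
  have : Fact p.Prime := ⟨hp⟩
  have : Fact q.Prime := ⟨hq⟩
  unfold nr
  have h := ZMod.exists_sq_eq_prime_iff_of_mod_four_eq_one (p := p) (q := q) (by omega) hq2
  by_cases h1 : IsSquare (q : ZMod p)
  · rw [if_pos h1, if_pos (h.1 h1)]
  · rw [if_neg h1, if_neg (fun h2 => h1 (h.2 h2))]

section one
variable {ι : Type} [Fintype ι] [LinearOrder ι] {J1 : Finset ι} {S₀ : Finset ℕ} {p : ι → ℕ}
  (f : ℕ → ZMod 2)

theorem sum_f (S₀ : Finset ℕ) (h : ℕ → ZMod 2) :
    ∑ u ∈ S₀.filter (fun u => u % 8 = 1), h u =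
      ∑ u ∈ univ.filter (fun u : S₀ => (u : ℕ) % 8 = 1), h u := by
  rw [Finset.sum_filter, Finset.sum_filter, ← Finset.sum_coe_sort S₀]

/-- extension by zero -/
noncomputable def ez0 {S₀ : Finset ℕ} (v : S₀ → ZMod 2) (n : ℕ) : ZMod 2 :=
  if h : n ∈ S₀ then v ⟨n, h⟩ else 0

theorem ez0_coe {S₀ : Finset ℕ} (v : S₀ → ZMod 2) (u : S₀) : ez0 v u = v u := by
  unfold ez0
  rw [dif_pos u.2]

omit [LinearOrder ι] in
theorem nd_iff (hJ : ∀ i, p i % 8 = 1 ↔ i ∈ J1) :
    Nd S₀ (univ.image p) ↔ LN S₀ J1 (fun i => lb f S₀ (p i)) := by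
  unfold Nd LN
  constructor
  · intro h w hw
    obtain ⟨u, hu1, hu2⟩ := hw
    obtain ⟨x, hx, hx1, hx2⟩ := h (ez0 w) ⟨u, u.2, hu1, by rw [ez0_coe]; exact hu2⟩
    rw [Finset.mem_image] at hx
    obtain ⟨i, -, rfl⟩ := hx
    refine ⟨i, (hJ i).1 hx1, ?_⟩
    rw [sum_f] at hx2
    intro h0
    apply hx2
    rw [← h0]
    refine Finset.sum_congr rfl fun u _ => ?_
    rw [ez0_coe]
    rfl
  · intro h w hw
    obtain ⟨u, hu0, hu1, hu2⟩ := hw
    obtain ⟨i, hi, hi2⟩ := h (fun u => w u) ⟨⟨u, hu0⟩, hu1, hu2⟩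
    refine ⟨p i, Finset.mem_image_of_mem _ (Finset.mem_univ _), (hJ i).2 hi, ?_⟩
    rw [sum_f]
    exact hi2

omit [LinearOrder ι] in
theorem sum_un (hp : Function.Injective p) (hd : ∀ i, p i ∉ S₀) (f : ℕ → ZMod 2) :
    ∑ x ∈ S₀ ∪ univ.image p, f x = ∑ u : S₀, f u + ∑ l, f (p l) := by
  rw [Finset.sum_union, Finset.sum_image (fun a _ b _ h => hp h), ← Finset.sum_coe_sort S₀]
  rw [Finset.disjoint_left]
  intro x hx hx'
  rw [Finset.mem_image] at hx'
  obtain ⟨i, -, rfl⟩ := hx'
  exact hd i hx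

theorem ext_sum (hpr : ∀ i, (p i).Prime ∧ p i ≠ 2) (hJ : ∀ i, p i % 8 = 1 ↔ i ∈ J1)
    (k : ι) (hk : k ∈ J1) (y : ι → ZMod 2) (yk : ZMod 2) :
    ∑ l, Pool.Agent.Y703.CQ.ext (fun e : prs J1 => nr (p e.1.1) (p e.1.2)) k l * (y l + yk) =
      ∑ l, nr (p k) (p l) * (y l + yk) := by
  refine Finset.sum_congr rfl fun l _ => ?_
  congr 1
  unfold Pool.Agent.Y703.CQ.ext
  by_cases h : (k, l) ∈ prs J1
  · rw [dif_pos h]
  · rw [dif_neg h]
    by_cases hlk : l = k
    · subst hlk
      rw [dif_neg (fun h' => h h'.1), nr_self]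
    · have h1 : l ∈ J1 ∧ ¬ k < l := by
        by_contra hcon
        apply h
        unfold prs
        refine Finset.mem_filter.2 ⟨Finset.mem_univ _, hk, hlk, fun hl => ?_⟩
        by_contra hkl
        exact hcon ⟨hl, hkl⟩
      have h2 : (l, k) ∈ prs J1 := by
        unfold prs
        exact Finset.mem_filter.2 ⟨Finset.mem_univ _, h1.1, fun h => hlk h.symm,
          fun _ => lt_of_le_of_ne (not_lt.1 h1.2) hlk⟩
      rw [dif_pos ⟨h2, hk⟩]
      exact nr_symm (hpr l).1 ((hJ l).2 h1.1) (hpr k).1 (hpr k).2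

theorem gd_iff (hp : Function.Injective p) (hpr : ∀ i, (p i).Prime ∧ p i ≠ 2)
    (hd : ∀ i, p i ∉ S₀) (hJ : ∀ i, p i % 8 = 1 ↔ i ∈ J1) :
    Gd f (S₀ ∪ univ.image p) ↔ GdA (univ.filter fun u : S₀ => (u : ℕ) % 8 = 1) J1
      (fun u v : S₀ => nr u v) (fun (u : S₀) l => nr u (p l)) (fun k (u : S₀) => nr (p k) u)
      (Pool.Agent.Y703.CQ.ext fun e : prs J1 => nr (p e.1.1) (p e.1.2))
      (fun u : S₀ => f u) (fun k => f (p k)) := by
  have hsol : ∀ x : ℕ → ZMod 2, Sol f (S₀ ∪ univ.image p) x ↔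
      (∀ u : S₀, (u : ℕ) % 8 = 1 → ∑ v : S₀, nr u v * (cu x v + x u) +
        ∑ l, nr u (p l) * (cu x (p l) + x u) + f u * x u = 0) ∧
      (∀ k ∈ J1, ∑ u : S₀, nr (p k) u * (cu x u + x (p k)) +
        ∑ l, Pool.Agent.Y703.CQ.ext (fun e : prs J1 => nr (p e.1.1) (p e.1.2)) k l *
          (cu x (p l) + x (p k)) + f (p k) * x (p k) = 0) := by
    intro x
    unfold Sol
    constructor
    · intro h
      refine ⟨fun u hu => ?_, fun k hk => ?_⟩
      · have := h u (Finset.mem_union_left _ u.2) hu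
        rw [sum_un hp hd] at this
        exact this
      · have := h (p k) (Finset.mem_union_right _ (Finset.mem_image_of_mem _ (Finset.mem_univ _)))
          ((hJ k).2 hk)
        rw [sum_un hp hd] at this
        rw [ext_sum hpr hJ k hk (fun l => cu x (p l))]
        exact this
    · rintro ⟨h1, h2⟩ y hy hy1
      rw [sum_un hp hd]
      rw [Finset.mem_union, Finset.mem_image] at hy
      rcases hy with hy | ⟨k, -, rfl⟩
      · exact h1 ⟨y, hy⟩ hy1
      · have hk := (hJ k).1 hy1
        have := h2 k hk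
        rw [ext_sum hpr hJ k hk (fun l => cu x (p l))] at this
        exact this
  unfold Gd GdA
  constructor
  · intro h c d hc0 hd0 h1 h2
    set c' : ℕ → ZMod 2 := fun n => if h : n ∈ S₀ then c ⟨n, h⟩ else
      if h : ∃ l, p l = n then d h.choose else 0 with hc'
    have e1 : ∀ u : S₀, c' u = c u := by
      intro u
      simp only [hc']
      rw [dif_pos u.2]
    have e2 : ∀ l, c' (p l) = d l := by
      intro l
      have hex : ∃ l', p l' = p l := ⟨l, rfl⟩
      simp only [hc']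
      rw [dif_neg (hd l), dif_pos hex]
      exact congrArg d (hp hex.choose_spec)
    have e3 : ∀ u : S₀, cu c' u = c u := by
      intro u
      unfold cu
      split_ifs with h8
      · exact e1 u
      · exact (hc0 u fun hu => h8 (Finset.mem_filter.1 hu).2).symm
    have e4 : ∀ l, cu c' (p l) = d l := by
      intro l
      unfold cu
      split_ifs with h8
      · exact e2 l
      · exact (hd0 l fun hl => h8 ((hJ l).2 hl)).symm
    have hs : Sol f (S₀ ∪ univ.image p) c' := by
      rw [hsol]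
      refine ⟨fun u hu => ?_, fun k hk => ?_⟩
      · simp only [e1, e3, e4]
        exact h1 u (Finset.mem_filter.2 ⟨Finset.mem_univ _, hu⟩)
      · simp only [e2, e3, e4]
        exact h2 k hk
    have h3 := h c' hs
    refine ⟨fun u => ?_, fun l => ?_⟩
    · by_cases h8 : (u : ℕ) % 8 = 1
      · rw [← e1]
        exact h3 _ (Finset.mem_union_left _ u.2) h8
      · exact hc0 u fun hu => h8 (Finset.mem_filter.1 hu).2
    · by_cases h8 : p l % 8 = 1
      · rw [← e2]
        exact h3 _ (Finset.mem_union_right _ (Finset.mem_image_of_mem _ (Finset.mem_univ _))) h8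
      · exact hd0 l fun hl => h8 ((hJ l).2 hl)
  · intro h x hx
    rw [hsol] at hx
    have hcu : ∀ q : ℕ, q % 8 = 1 → cu x q = x q := by
      intro q hq
      unfold cu
      rw [if_pos hq]
    obtain ⟨ht1, ht2⟩ := h (fun u => cu x u) (fun l => cu x (p l))
      (fun u hu => by
        have h8 : ¬ (u : ℕ) % 8 = 1 := fun h8 => hu (Finset.mem_filter.2 ⟨Finset.mem_univ _, h8⟩)
        unfold cu
        rw [if_neg h8])
      (fun k hk => by
        have h8 : ¬ p k % 8 = 1 := fun h8 => hk ((hJ k).1 h8)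
        unfold cu
        rw [if_neg h8])
      (fun u hu => by
        have h8 := (Finset.mem_filter.1 hu).2
        have := hx.1 u h8
        rw [← hcu u h8] at this
        exact this)
      (fun k hk => by
        have h8 := (hJ k).2 hk
        have := hx.2 k hk
        rw [← hcu (p k) h8] at this
        exact this)
    intro y hy hy8
    rw [Finset.mem_union, Finset.mem_image] at hy
    rcases hy with hy | ⟨k, -, rfl⟩
    · rw [← hcu y hy8]
      exact ht1 ⟨y, hy⟩
    · rw [← hcu _ hy8]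
      exact ht2 k

end one

theorem HB_sub {ι : Type} {J1 : Finset ι} {C : ι → Finset ℕ} {X : ι → ℕ} {κ : ℝ}
    (h : HB J1 C X κ) (P : ι → ℕ → Prop) [∀ i, DecidablePred (P i)] :
    HB J1 (fun i => (C i).filter (P i)) X κ := by
  intro i l hil hi c d hc hd
  have h1 := h i l hil hi (fun x => if P i x then c x else 0) (fun y => if P l y then d y else 0)
    (fun x => by
      split_ifs
      · exact hc x
      · simp) (fun y => by
      split_ifs
      · exact hd y
      · simp)
  refine (le_of_eq ?_).trans h1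
  congr 1
  rw [Finset.sum_filter]
  refine Finset.sum_congr rfl fun x _ => ?_
  by_cases hx : P i x
  · rw [if_pos hx, Finset.sum_filter]
    refine Finset.sum_congr rfl fun y _ => ?_
    by_cases hy : P l y
    · rw [if_pos hy, if_pos hx, if_pos hy]
    · rw [if_neg hy, if_neg hy, mul_zero, zero_mul]
  · rw [if_neg hx]
    symm
    refine Finset.sum_eq_zero fun y _ => ?_
    rw [if_neg hx, zero_mul, zero_mul]

/-- **The count in a box.** -/
theorem t_BOX : S_BOX := by
  intro hEQ hLA f ι _ _ J1 C X κ S₀ hκ hCX hHB hS₀ hC hdis hne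
  set cc : ℝ := 2 * (4 ^ S₀.card / 2 ^ J1.card) with hcc
  set R : ℝ := 2 ^ (prs J1).card * (κ * ∏ j, (X j : ℝ)) with hR
  have hcc0 : 0 ≤ cc := by positivity
  have hR0 : 0 ≤ R := mul_nonneg (by positivity)
    (mul_nonneg hκ (Finset.prod_nonneg fun j _ => by positivity))
  -- facts on tuples
  have hinj : ∀ p ∈ Fintype.piFinset C, Function.Injective p := by
    intro p hp i j hij
    rw [Fintype.mem_piFinset] at hp
    by_contra hne
    have h1 := Finset.disjoint_left.1 (hdis i j hne) (hp i)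
    rw [hij] at h1
    exact h1 (hp j)
  have hJ : ∀ p ∈ Fintype.piFinset C, ∀ i, p i % 8 = 1 ↔ i ∈ J1 := by
    intro p hp i
    rw [Fintype.mem_piFinset] at hp
    exact (hC i _ (hp i)).2.2.2.symm
  have hd : ∀ p ∈ Fintype.piFinset C, ∀ i, p i ∉ S₀ := by
    intro p hp i
    rw [Fintype.mem_piFinset] at hp
    exact (hC i _ (hp i)).2.2.1
  have hpr : ∀ p ∈ Fintype.piFinset C, ∀ i, (p i).Prime ∧ p i ≠ 2 := by
    intro p hp i
    rw [Fintype.mem_piFinset] at hp
    exact ⟨(hC i _ (hp i)).1, (hC i _ (hp i)).2.1⟩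
  have hU1 : (univ.filter fun u : S₀ => (u : ℕ) % 8 = 1).card ≤ S₀.card := by
    refine (Finset.card_le_univ _).trans ?_
    rw [Fintype.card_coe]
  -- the part with given labels
  have h1 : ∀ β : ι → Lb S₀, LN S₀ J1 β →
      |(((Fintype.piFinset C).filter fun p => (fun i => lb f S₀ (p i)) = β ∧
          Gd f (S₀ ∪ univ.image p)).card : ℝ) -
        c2 * (((Fintype.piFinset C).filter fun p => (fun i => lb f S₀ (p i)) = β).card : ℝ)| ≤
      cc * (((Fintype.piFinset C).filter fun p => (fun i => lb f S₀ (p i)) = β).card : ℝ) + R := by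
    intro β hβ
    by_cases hemp : ((Fintype.piFinset C).filter fun p => (fun i => lb f S₀ (p i)) = β) = ∅
    · have he2 : ((Fintype.piFinset C).filter fun p => (fun i => lb f S₀ (p i)) = β ∧
          Gd f (S₀ ∪ univ.image p)) = ∅ := by
        rw [← Finset.filter_filter, hemp, Finset.filter_empty]
      rw [he2, hemp]
      simpa using hR0
    obtain ⟨p₀, hp₀⟩ := Finset.nonempty_iff_ne_empty.2 hemp
    rw [Finset.mem_filter] at hp₀
    obtain ⟨hp₀, hp₀β⟩ := hp₀
    set C' : ι → Finset ℕ := fun i => (C i).filter fun q => lb f S₀ q = β i with hC'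
    have hpi : (Fintype.piFinset C).filter (fun p => (fun i => lb f S₀ (p i)) = β) =
        Fintype.piFinset C' := by
      ext p
      simp only [Finset.mem_filter, Fintype.mem_piFinset, hC']
      constructor
      · rintro ⟨h2, h3⟩ i
        exact ⟨h2 i, congrFun h3 i⟩
      · intro h2
        exact ⟨fun i => (h2 i).1, funext fun i => (h2 i).2⟩
    have h2 := hLA S₀ ι (univ.filter fun u : S₀ => (u : ℕ) % 8 = 1) J1 hne
      (fun u v => nr u v) (fun u l => (β l).1 u) (fun k u => (β k).2.1 u) (fun u => f u)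
      (fun k => (β k).2.2)
      (by
        intro u hu v hv
        exact nr_symm (hS₀ u u.2).1 (Finset.mem_filter.1 hu).2 (hS₀ v v.2).1 (hS₀ v v.2).2)
      (by
        intro u hu k hk
        have h3 := congrFun hp₀β k
        rw [← h3]
        exact nr_symm (hS₀ u u.2).1 (Finset.mem_filter.1 hu).2 (hpr p₀ hp₀ k).1 (hpr p₀ hp₀ k).2)
      (by
        rintro w hw0 ⟨u, hu⟩
        have hu8 : (u : ℕ) % 8 = 1 := by
          by_contra h8
          exact hu (hw0 u fun hu' => h8 (Finset.mem_filter.1 hu').2)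
        obtain ⟨k, hk, hk2⟩ := hβ w ⟨u, hu8, hu⟩
        refine ⟨k, hk, ?_⟩
        rw [Finset.sum_filter] at hk2
        intro h0
        apply hk2
        refine Eq.trans ?_ h0
        refine Finset.sum_congr rfl fun v _ => ?_
        split_ifs with h8
        · rfl
        · rw [hw0 v fun hv => h8 (Finset.mem_filter.1 hv).2, zero_mul])
    set Q : (prs J1 → ZMod 2) → Prop := fun α => GdA (univ.filter fun u : S₀ => (u : ℕ) % 8 = 1)
      J1 (fun u v : S₀ => nr u v) (fun (u : S₀) l => (β l).1 u) (fun k (u : S₀) => (β k).2.1 u)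
      (Pool.Agent.Y703.CQ.ext α) (fun u : S₀ => f u) (fun k => (β k).2.2) with hQ
    have h3 := hEQ ι J1 C' X κ hκ
      (fun i => (Finset.card_le_card (Finset.filter_subset _ _)).trans (hCX i))
      (HB_sub hHB fun i q => lb f S₀ q = β i) Q
    have h4 : ((Fintype.piFinset C).filter fun p => (fun i => lb f S₀ (p i)) = β ∧
        Gd f (S₀ ∪ univ.image p)) = ((Fintype.piFinset C').filter fun p =>
          Q fun e => nr (p e.1.1) (p e.1.2)) := by
      rw [← hpi, Finset.filter_filter]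
      refine Finset.filter_congr fun p hp => ?_
      refine and_congr_right fun hl => ?_
      rw [gd_iff f (hinj p hp) (hpr p hp) (hd p hp) (hJ p hp)]
      subst hl
      exact Iff.rfl
    have h5 : (((Fintype.piFinset C').card : ℕ) : ℝ) = ∏ j, ((C' j).card : ℝ) := by
      rw [Fintype.card_piFinset]
      push_cast
      rfl
    rw [h4, hpi, h5]
    have h2' : |((univ.filter Q).card : ℝ) / 2 ^ (prs J1).card - c2| ≤ cc := by
      refine h2.trans ?_
      rw [hcc]
      refine mul_le_mul_of_nonneg_left ?_ (by norm_num)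
      refine div_le_div_of_nonneg_right ?_ (by positivity)
      exact pow_le_pow_right₀ (by norm_num) hU1
    set n : ℝ := (((Fintype.piFinset C').filter fun p =>
          Q fun e => nr (p e.1.1) (p e.1.2)).card : ℝ) with hn
    set q : ℝ := ((univ.filter Q).card : ℝ) / 2 ^ (prs J1).card with hq
    set P : ℝ := ∏ j, ((C' j).card : ℝ) with hP
    have hP0 : 0 ≤ P := Finset.prod_nonneg fun j _ => by positivity
    have h6 : |n - c2 * P| ≤ |n - q * P| + |q - c2| * P := by
      have h7 : n - c2 * P = (n - q * P) + (q - c2) * P := by ring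
      have h8 : |(q - c2) * P| = |q - c2| * P := by rw [abs_mul, abs_of_nonneg hP0]
      rw [h7, ← h8]
      exact abs_add_le _ _
    have h7 : |q - c2| * P ≤ cc * P := mul_le_mul_of_nonneg_right h2' hP0
    have h8 : |n - q * P| ≤ R := h3
    linarith
  -- sum over the labels
  set LL := univ.filter (fun β : ι → Lb S₀ => LN S₀ J1 β) with hLL
  have hfib : ∀ T : (ι → ℕ) → Prop,
      (((Fintype.piFinset C).filter fun p => Nd S₀ (univ.image p) ∧ T p).card : ℝ) =
      ∑ β ∈ LL, (((Fintype.piFinset C).filter fun p =>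
        (fun i => lb f S₀ (p i)) = β ∧ T p).card : ℝ) := by
    intro T
    rw [Finset.card_eq_sum_card_fiberwise (f := fun (p : ι → ℕ) (i : ι) => lb f S₀ (p i))
      (t := LL) (by
        intro p hp
        rw [Finset.mem_coe, Finset.mem_filter] at hp
        rw [Finset.mem_coe, hLL, Finset.mem_filter]
        exact ⟨Finset.mem_univ _, (nd_iff f (hJ p hp.1)).1 hp.2.1⟩)]
    push_cast
    refine Finset.sum_congr rfl fun β hβ => ?_
    rw [hLL, Finset.mem_filter] at hβ
    congr 2
    ext p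
    simp only [Finset.mem_filter]
    constructor
    · rintro ⟨⟨h3, h4, h4'⟩, h5⟩
      exact ⟨h3, h5, h4'⟩
    · rintro ⟨h3, h4, h5⟩
      refine ⟨⟨h3, ?_, h5⟩, h4⟩
      rw [nd_iff f (hJ p h3), h4]
      exact hβ.2
  have hf1 := hfib fun p => Gd f (S₀ ∪ univ.image p)
  have hf2 := hfib fun _ => True
  simp only [and_true] at hf2
  rw [hf1, hf2, Finset.mul_sum, ← Finset.sum_sub_distrib]
  refine (Finset.abs_sum_le_sum_abs _ _).trans ?_
  refine (Finset.sum_le_sum fun β hβ => h1 β (Finset.mem_filter.1 hβ).2).trans ?_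
  rw [Finset.sum_add_distrib, ← Finset.mul_sum, Finset.sum_const, nsmul_eq_mul]
  have h5 : ((LL.card : ℕ) : ℝ) ≤ 2 ^ ((2 * S₀.card + 1) * Fintype.card ι) := by
    have h6 : LL.card ≤ Fintype.card (ι → Lb S₀) := Finset.card_le_univ _
    rw [Fintype.card_fun, Fintype.card_prod, Fintype.card_prod, Fintype.card_fun, ZMod.card,
      Fintype.card_coe, ← pow_succ, ← pow_add, ← pow_mul] at h6
    have h7 : (S₀.card + (S₀.card + 1)) * Fintype.card ι = (2 * S₀.card + 1) * Fintype.card ι := by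
      ring
    rw [h7] at h6
    exact_mod_cast h6
  have h6 := mul_le_mul_of_nonneg_right h5 hR0
  rw [pow_add, mul_assoc]
  linarith

end Pool.Agent.Y657.CQ
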